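import Pool.Agent.helper16.LW.Spec

/-!
# Project lw: module KK (convolution of two kernels)
-/

set_option autoImplicit false

open Complex MeasureTheory

namespace Pool.Agent.LW

open Pool.Agent.ZD Pool.Agent.helper84.DM Pool.Agent.helper78.ED Pool.Agent.DH

theorem KK_pt (u v r : ℝ) : kap u * kap v ≤ kap (v - r * u) * (4 * kap u + 2 * r ^ 2 * kap v) := by
  unfold kap
  have h1 : 0 < 1 + u ^ 2 := by positivity
  have h2 : 0 < 1 + v ^ 2 := by positivity
  have h3 : 0 < 1 + (v - r * u) ^ 2 := by positivity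
  have e : 1 / (1 + (v - r * u) ^ 2) * (4 * (1 / (1 + u ^ 2)) + 2 * r ^ 2 * (1 / (1 + v ^ 2))) =
      (4 * (1 + v ^ 2) + 2 * r ^ 2 * (1 + u ^ 2)) /
        ((1 + (v - r * u) ^ 2) * ((1 + u ^ 2) * (1 + v ^ 2))) := by
    field_simp
  rw [e, div_mul_div_comm, one_mul, div_le_div_iff₀ (by positivity) (by positivity)]
  have h4 : 1 + (v - r * u) ^ 2 ≤ 4 * (1 + v ^ 2) + 2 * r ^ 2 * (1 + u ^ 2) := by
    nlinarith [sq_nonneg (v + r * u), sq_nonneg v, sq_nonneg r]
  calc 1 * ((1 + (v - r * u) ^ 2) * ((1 + u ^ 2) * (1 + v ^ 2))) =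
      (1 + (v - r * u) ^ 2) * ((1 + u ^ 2) * (1 + v ^ 2)) := one_mul _
    _ ≤ _ := mul_le_mul_of_nonneg_right h4 (by positivity)

theorem KK_int (J z : ℝ) (hJ : 0 < J) : Integrable (fun a : ℝ => kap (J * (a - z))) ∧
    ∫ a : ℝ, kap (J * (a - z)) = Real.pi / J := by
  have h0 : (fun a : ℝ => kap a) = fun a => (1 + a ^ 2)⁻¹ := by
    funext a
    rw [kap, one_div]
  have h1 : Integrable (fun a : ℝ => kap a) := by
    rw [h0]
    exact integrable_inv_one_add_sq
  have h2 : Integrable (fun a : ℝ => kap (J * a)) := h1.comp_mul_left' hJ.ne'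
  refine ⟨h2.comp_sub_right z, ?_⟩
  rw [integral_sub_right_eq_self (fun a => kap (J * a)) z, Measure.integral_comp_mul_left]
  rw [h0, integral_univ_inv_one_add_sq, abs_of_pos (inv_pos.2 hJ), smul_eq_mul, div_eq_inv_mul]

theorem KK_bd (J z : ℝ) (hJ : 0 < J) : ∫ a in (-5 : ℝ)..5, kap (J * (a - z)) ≤ Real.pi / J := by
  obtain ⟨h1, h2⟩ := KK_int J z hJ
  rw [← h2, intervalIntegral.integral_of_le (by norm_num)]
  refine setIntegral_le_integral h1 (Filter.Eventually.of_forall fun a => ?_)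
  show 0 ≤ kap _
  rw [kap]
  positivity

theorem KK_cont (J z : ℝ) : Continuous fun a : ℝ => kap (J * (a - z)) := by
  unfold kap
  refine continuous_const.div (by fun_prop) fun a => ?_
  positivity

theorem KK : KK_stmt := by
  intro J K z z' hK hKJ
  have hJ : 0 < J := hK.trans_le hKJ
  have h1 := KK_bd J z hJ
  have h2 := KK_bd K z' hK
  have hk : 0 ≤ kap (K * (z - z')) := by rw [kap]; positivity
  have h3 : ∫ a in (-5 : ℝ)..5, kap (J * (a - z)) * kap (K * (a - z')) ≤
      ∫ a in (-5 : ℝ)..5, kap (K * (z - z')) *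
        (4 * kap (J * (a - z)) + 2 * (K / J) ^ 2 * kap (K * (a - z'))) := by
    refine intervalIntegral.integral_mono_on (by norm_num) ?_ ?_ ?_
    · exact ((KK_cont J z).mul (KK_cont K z')).intervalIntegrable _ _
    · exact (continuous_const.mul ((continuous_const.mul (KK_cont J z)).add
        (continuous_const.mul (KK_cont K z')))).intervalIntegrable _ _
    · intro a _
      have h := KK_pt (J * (a - z)) (K * (a - z')) (K / J)
      have e : K * (a - z') - K / J * (J * (a - z)) = K * (z - z') := by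
        field_simp
        ring
      rwa [e] at h
  have h4 : ∫ a in (-5 : ℝ)..5, kap (K * (z - z')) *
        (4 * kap (J * (a - z)) + 2 * (K / J) ^ 2 * kap (K * (a - z'))) =
      kap (K * (z - z')) * (4 * (∫ a in (-5 : ℝ)..5, kap (J * (a - z))) +
        2 * (K / J) ^ 2 * ∫ a in (-5 : ℝ)..5, kap (K * (a - z'))) := by
    rw [intervalIntegral.integral_const_mul, intervalIntegral.integral_add,
      intervalIntegral.integral_const_mul, intervalIntegral.integral_const_mul]
    · exact (continuous_const.mul (KK_cont J z)).intervalIntegrable _ _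
    · exact (continuous_const.mul (KK_cont K z')).intervalIntegrable _ _
  rw [h4] at h3
  have h5 : 4 * (∫ a in (-5 : ℝ)..5, kap (J * (a - z))) +
        2 * (K / J) ^ 2 * (∫ a in (-5 : ℝ)..5, kap (K * (a - z'))) ≤
      4 * (Real.pi / J) + 2 * (K / J) ^ 2 * (Real.pi / K) :=
    add_le_add (mul_le_mul_of_nonneg_left h1 (by norm_num))
      (mul_le_mul_of_nonneg_left h2 (by positivity))
  have h6 : J * (4 * (Real.pi / J) + 2 * (K / J) ^ 2 * (Real.pi / K)) ≤ 20 := by
    have e : J * (4 * (Real.pi / J) + 2 * (K / J) ^ 2 * (Real.pi / K)) =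
        4 * Real.pi + 2 * Real.pi * (K / J) := by
      field_simp
    rw [e]
    have h7 : K / J ≤ 1 := (div_le_one hJ).2 hKJ
    have h8 := Real.pi_lt_d2
    have h9 := Real.pi_pos
    nlinarith
  calc J * ∫ a in (-5 : ℝ)..5, kap (J * (a - z)) * kap (K * (a - z')) ≤
      J * (kap (K * (z - z')) * (4 * (Real.pi / J) + 2 * (K / J) ^ 2 * (Real.pi / K))) :=
        mul_le_mul_of_nonneg_left (h3.trans (mul_le_mul_of_nonneg_left h5 hk)) hJ.le
    _ = (J * (4 * (Real.pi / J) + 2 * (K / J) ^ 2 * (Real.pi / K))) * kap (K * (z - z')) := by ring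
    _ ≤ 20 * kap (K * (z - z')) := mul_le_mul_of_nonneg_right h6 hk

end Pool.Agent.LW
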